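import Pool.Agent.Helper49.CA.Final

/-!
# NP, randomised polynomial time, and advice that depends on the random bits

`CoinAdvice L`: some randomised polynomial-time machine with logarithmically many bits of advice,
which depend on the length of the input and on the random bits (but not on the input), decides `L`
with an inverse polynomial gap between the probabilities of acceptance inside and outside `L`; the
gap may be around any threshold. `RandomFeatures L`: the language is separated, with a polynomial
margin, by a real linear functional of the random features `r ↦ [V accepts (x, r)]`; the coefficients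
are an arbitrary real function of the random string, with polynomial mean square.

`NP ⊆ BPP` if and only if all languages in `NP`, or one `NP`-hard language, have one of these two
properties.
-/

set_option autoImplicit false

namespace Pool.Agent.Results.MP_b6562f_lc.CoinAdvice

open Pool.Agent.NPC
open Pool.Agent.Helper6K1.BN (InBPP)
open Pool.Agent.Helper49.CA

theorem result :
    List.TFAE [
      ∀ L : Set (List Bool), InNP L → InBPP L,
      ∀ L : Set (List Bool), InNP L → CoinAdvice L,
      ∃ A : Set (List Bool), NPHard A ∧ CoinAdvice A,
      ∀ L : Set (List Bool), InNP L → RandomFeatures L,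
      ∃ A : Set (List Bool), NPHard A ∧ RandomFeatures A] := by
  obtain ⟨S, hS1, hS2⟩ := Pool.Agent.Z45.OG.exists_complete
  tfae_have 1 → 2 := fun h L hL => coinAdvice_of_inBPP (h L hL)
  tfae_have 2 → 3 := fun h => ⟨S, hS2, h S hS1⟩
  tfae_have 3 → 5 := fun ⟨A, hA, h⟩ => ⟨A, hA, randomFeatures_of_coinAdvice h⟩
  tfae_have 2 → 4 := fun h L hL => randomFeatures_of_coinAdvice (h L hL)
  tfae_have 4 → 5 := fun h => ⟨S, hS2, h S hS1⟩
  tfae_have 5 → 1 := fun ⟨A, hA, h⟩ L hL => np_of_hard hA h hL
  tfae_finish

end Pool.Agent.Results.MP_b6562f_lc.CoinAdvice
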