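import Pool.Agent.Helper70K1.NB.Good
import Pool.Agent.Helper48.NB.Red
import Pool.Agent.Z45.OG.Sat

/-!
# NP, randomised polynomial time and the prediction of parities of answers

`RPredictable L`: for a polynomial `P`, a randomised polynomial-time algorithm gets a list of at
least `P(n)` strings of length at most `n` and gives a nonempty selection of positions of the list
and a bit; with probability at least `1/2 + 1/(P(n)+1)` this bit is the parity of the number of
selected strings in `L`.

`NP ⊆ BPP` if and only if every language in `NP` is parity predictable in this sense, and if and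
only if some `NP`-hard language is.
-/

set_option autoImplicit false

namespace Pool.Agent.Results.MP_b6562f_lc.ParityPrediction

open Pool.Agent.NPC
open Pool.Agent.Helper6K1.BN (InBPP InRP)
open Pool.Agent.Helper70K1.NB

theorem result :
    List.TFAE [
      ∀ L : Set (List Bool), InNP L → InBPP L,
      ∀ L : Set (List Bool), InNP L → RPredictable L,
      ∃ K : Set (List Bool), NPHard K ∧ RPredictable K] := by
  tfae_have 1 → 2 := fun h L hL => Pool.Agent.Helper48.NB.rpredictable_of_bpp (h L hL)
  tfae_have 2 → 1 := fun h L hL => bpp_of_all h hL
  tfae_have 2 → 3 := by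
    intro h
    obtain ⟨K, h1, h2⟩ := Pool.Agent.Z45.OG.exists_complete
    exact ⟨K, h2, h K h1⟩
  tfae_have 3 → 2 := by
    rintro ⟨K, hK, h⟩ L hL
    exact Pool.Agent.Helper48.NB.RPredictable.of_reduces h (hK L hL)
  tfae_finish

end Pool.Agent.Results.MP_b6562f_lc.ParityPrediction
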