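import Pool.Agent.Helper49.RH.Final

/-!
# NP, randomised polynomial time and weighted threshold gates

`RHalfspace L`: the strings of length `n` in `L` are separated from the other strings of length `n`
by a linear functional with arbitrary real coefficients, applied to a vector of integers computed in
randomised polynomial time with arbitrarily small error. `LT1 A`: the language `A` is decided by one
weighted threshold gate, with arbitrary real weights, for each input length.

`NP ⊆ BPP` if and only if all languages in `NP` have the first property, and if and only if some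
`NP`-hard language has it. If some `NP`-hard language is in `LT1`, then `NP = RP`.
-/

set_option autoImplicit false

namespace Pool.Agent.Results.MP_b6562f_lc.ThresholdGates

open Pool.Agent.NPC
open Pool.Agent.Helper6K1.BN (InBPP InRP)
open Pool.Agent.Helper49.RH
open Pool.Agent.Helper49.HS (LT1)

theorem result :
    List.TFAE [
      ∀ L : Set (List Bool), InNP L → InBPP L,
      ∀ L : Set (List Bool), InNP L → RHalfspace L,
      ∃ A : Set (List Bool), NPHard A ∧ RHalfspace A] ∧
    ((∃ A : Set (List Bool), NPHard A ∧ LT1 A) → ∀ L : Set (List Bool), InNP L → InRP L) := by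
  refine ⟨?_, ?_⟩
  · tfae_have 1 → 2 := rhalfspace_of_BPP
    tfae_have 2 → 1 := fun h L hL => (np_of_all h hL).1
    tfae_have 2 → 3 := by
      intro h
      obtain ⟨A, h1, h2⟩ := Pool.Agent.Z45.OG.exists_complete
      exact ⟨A, h2, h A h1⟩
    tfae_have 3 → 1 := by
      rintro ⟨A, hA, h⟩ L hL
      exact (np_of_hard hA h hL).1
    tfae_finish
  · rintro ⟨A, hA, h⟩ L hL
    exact (np_of_hard hA (rhalfspace_of_LT1 h) hL).2

end Pool.Agent.Results.MP_b6562f_lc.ThresholdGates
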