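import Pool.Agent.Z45.SF.Main

/-!
# NP and BPP: satisfiability for randomised circuits with few unreliable or missing negations

`NP ⊆ BPP` would imply that randomised circuits of polynomial size decide `k`-SAT for `k`-CNF
formulas with `N` variables. Here this is refuted for circuits which may use all negated inputs but
`N ^ η` of them, for any `η > 0`, in the following sense.

The input is a set of clauses with `k` literals over `N` variables, given by one bit for each of the
about `(2 N) ^ k / k!` possible clauses. The circuits have the inputs and their negations, and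
gates which compute arbitrary nondecreasing real functions of two arguments (for example AND and OR
gates; all circuits with AND, OR and NOT gates can be brought into this form by doubling their size).
A randomised circuit is a finite nonempty family of circuits from which one is chosen uniformly at
random. The depth is not restricted.

Let `k ≥ 3`, `0 ≤ θ < k` and `ε > 0`. There is `δ > 0` such that for all large `N` and all
`D ≤ N ^ θ` the following holds.

1. Unreliable negations. Suppose that a randomised circuit accepts every satisfiable formula with
   probability at most `b` and every unsatisfiable formula with probability at least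
   `b + N ^ (-δ)`, the latter even if each negated input is stuck at `0` independently with
   probability `1 / D`. Then it has a circuit with at least `exp (N ^ ((k - θ) / (k + 1) - ε))`
   gates.
2. Missing negations. Let `Z` be a random set of clauses, to which each clause belongs
   independently with probability `1 / D`. With probability at least `1 - exp (-N ^ δ)` the set `Z`
   is such that all randomised circuits without the negated inputs in `Z`, which decide
   satisfiability with the advantage `N ^ (-δ)`, have a circuit of size at least
   `exp (N ^ ((k - θ) / (k + 1) - ε))`. The circuits may depend on `Z`, and they may contain a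
   few special gates, which may be NOT gates or compute any real function of the results of
   comparisons of other values with constants, if the product of the numbers `w + 1` over the special
   gates (`w` is the number of wires into the gate) is at most `N ^ δ`.

So exponential size is necessary if `N ^ η` random negated inputs of the about `N ^ k` ones are
unreliable or missing (`θ = k - η`). If `D` is larger than the number of the clauses then there is
probably no fault at all; so a lower bound like this for `θ > k` would separate `NP` from `BPP`.
For `D = 1` all negated inputs are missing; this is the case of circuits of monotone real gates, a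
starting theorem (`Pool.Agent.W969.MC.sat_rand`), from which the general case is derived.

The proof of the reduction to monotone circuits: every variable of a small formula gets `m` copies
which are forced to be equal by fixed clauses. A clause of the small formula can be written with the
copies of its variables in `m ^ k` ways, and one of them is chosen at random. The choice for the
clauses which are not in the formula is hidden among the faults, and so all negated inputs which
depend on the formula can be replaced by `0`.
-/

set_option autoImplicit false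

namespace Pool.Agent.Results.MP_b6562f_lc.UnreliableNegations

open Finset

/-- A clause: a set of `k` literals over `N` variables; `(v, true)` is the variable `v` and
`(v, false)` its negation. -/
abbrev Clause (N k : ℕ) : Type := {c : Finset (Fin N × Bool) // c.card = k}

/-- The formula (the set of the clauses `c` with `x c = true`) is satisfiable. -/
def Satisfiable {N k : ℕ} (x : Clause N k → Bool) : Prop :=
  ∃ a : Fin N → Bool, ∀ c, x c = true → ∃ l ∈ c.1, a l.1 = l.2

/-- A circuit with the gates `0, ..., s - 1` whose inputs are the bits of the elements `e` of `E` and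
their negations: `(e, true)` stands for the bit of `e` and `(e, false)` for its negation. Gate `i`
has `w i` incoming wires, the `j`-th of them from `a i j`, a literal (`0` or `1`) or an earlier gate;
it computes the real function `op i`, and its value on the values `y` of the literals is `val y i`.
The gates which are not special have at most two wires, and their functions are nondecreasing. The
function of a special gate depends only on the results of comparing the values of its wires with the
constants `θ i j` (for a NOT gate: `w i = 1`, `θ i 0 = 1 / 2`). The circuit accepts if the value of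
gate `out` is at least `τ`. -/
structure Circuit (E : Type) where
  s : ℕ
  special : Finset (Fin s)
  w : Fin s → ℕ
  a : (i : Fin s) → Fin (w i) → (E × Bool) ⊕ Fin s
  op : (i : Fin s) → (Fin (w i) → ℝ) → ℝ
  θ : (i : Fin s) → Fin (w i) → ℝ
  val : (E × Bool → Bool) → Fin s → ℝ
  out : Fin s
  τ : ℝ
  earlier : ∀ i j m, a i j = Sum.inr m → m < i
  mono : ∀ i ∉ special, w i ≤ 2 ∧ Monotone (op i)
  tests : ∀ i ∈ special, ∀ z z' : Fin (w i) → ℝ, (∀ j, θ i j ≤ z j ↔ θ i j ≤ z' j) →
    op i z = op i z'
  spec : ∀ y i, val y i = op i (fun j =>
    Sum.elim (fun p => if y p = true then (1 : ℝ) else 0) (val y) (a i j))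

/-- The size: the number of gates plus the number of wires into special gates. -/
def Circuit.size {E : Type} (C : Circuit E) : ℕ := C.s + ∑ i ∈ C.special, C.w i

/-- The product of the numbers `w + 1` over the special gates (`2 ^ t` for `t` NOT gates). -/
def Circuit.freedom {E : Type} (C : Circuit E) : ℕ := ∏ i ∈ C.special, (C.w i + 1)

open Classical in
/-- The values of the literals on the input `x` if the negated inputs in `Z` are stuck at `0`. -/
noncomputable def literals {E : Type} (x : E → Bool) (Z : Set E) : E × Bool → Bool :=
  fun p => if p.2 = true then x p.1 else if p.1 ∈ Z then false else !x p.1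

/-- The circuit accepts the input `x` if the negated inputs in `Z` are stuck at `0`. -/
def Circuit.Accepts {E : Type} (C : Circuit E) (x : E → Bool) (Z : Set E) : Prop :=
  C.τ ≤ C.val (literals x Z) C.out

/-- The probability that the input `x` is accepted by a circuit that is chosen uniformly at random
from the family `C`, if the negated inputs in `Z` are stuck at `0`. -/
noncomputable def acceptance {E R : Type} (C : R → Circuit E) (Z : Set E) (x : E → Bool) : ℝ :=
  (Nat.card {ρ : R // (C ρ).Accepts x Z} : ℝ) / Nat.card R

/-- The set of the elements `e` with `f e = 0`. For a random `f` this is a random set which contains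
each element independently with probability `1 / D`. -/
def zeros {E : Type} {D : ℕ} (f : E → Fin D) : Set E := {e | (f e : ℕ) = 0}

/-- The probability that the input `x` is accepted by a circuit that is chosen uniformly at random
from the family `C`, if each negated input is stuck at `0` independently with probability `1 / D`. -/
noncomputable def faultyAcceptance {E R : Type} (C : R → Circuit E) (D : ℕ)
    (x : E → Bool) : ℝ :=
  (Nat.card {v : R × (E → Fin D) // (C v.1).Accepts x (zeros v.2)} : ℝ) /
    Nat.card (R × (E → Fin D))

/-- The negated inputs in `Z` are indispensable: if a randomised circuit whose special gates have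
freedom at most `N ^ δ` decides satisfiability with the advantage `N ^ (-δ)`, while the negated
inputs in `Z` are stuck at `0`, then one of its circuits has at least the size `exp L`. -/
def Indispensable (N k : ℕ) (δ L : ℝ) (Z : Set (Clause N k)) : Prop :=
  ∀ (R : Type) [Finite R] [Nonempty R] (C : R → Circuit (Clause N k)) (b : ℝ),
    (∀ ρ, ((C ρ).freedom : ℝ) ≤ (N : ℝ) ^ δ) →
    (∀ x, ¬ Satisfiable x → b + (N : ℝ) ^ (-δ) ≤ acceptance C Z x) →
    (∀ x, Satisfiable x → acceptance C Z x ≤ b) → ∃ ρ, Real.exp L ≤ ((C ρ).size : ℝ)

/-- Let `k ≥ 3`, `0 ≤ θ < k` and `ε > 0`. There is `δ > 0` such that for all large `N` and all `D`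
with `1 ≤ D ≤ N ^ θ`:
(1) if a randomised circuit without special gates accepts each unsatisfiable formula with probability
at least `b + N ^ (-δ)`, even if each negated input is stuck at `0` independently with probability
`1 / D`, and each satisfiable formula with probability at most `b` (without faults), then one of its
circuits has at least `exp (N ^ ((k - θ) / (k + 1) - ε))` gates;
(2) for all but a fraction `exp (-N ^ δ)` of the functions `f : Clause N k → Fin D` the negated
inputs in `zeros f` are indispensable, with the same lower bound for the size. -/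
theorem result (k : ℕ) (hk : 3 ≤ k) (θ ε : ℝ) (hθ0 : 0 ≤ θ) (hθ : θ < k) (hε : 0 < ε) :
    ∃ δ : ℝ, 0 < δ ∧ ∃ N0 : ℕ, ∀ N : ℕ, N0 ≤ N → ∀ D : ℕ, 1 ≤ D → (D : ℝ) ≤ (N : ℝ) ^ θ →
      (∀ (R : Type) [Finite R] [Nonempty R] (C : R → Circuit (Clause N k)) (b : ℝ),
        (∀ ρ, (C ρ).special = ∅) →
        (∀ x, ¬ Satisfiable x → b + (N : ℝ) ^ (-δ) ≤ faultyAcceptance C D x) →
        (∀ x, Satisfiable x → acceptance C ∅ x ≤ b) →
        ∃ ρ, Real.exp ((N : ℝ) ^ ((k - θ) / (k + 1) - ε)) ≤ ((C ρ).s : ℝ)) ∧
      (Nat.card {f : Clause N k → Fin D //
          ¬ Indispensable N k δ ((N : ℝ) ^ ((k - θ) / (k + 1) - ε)) (zeros f)} : ℝ) ≤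
        Real.exp (-(N : ℝ) ^ δ) * Nat.card (Clause N k → Fin D) := by
  classical
  obtain ⟨δ, hδ, N0, H⟩ := Pool.Agent.Z45.SF.sat_fault k hk θ ε hθ0 hθ hε
  refine ⟨δ, hδ, N0, fun N hN D hD hDθ => ?_⟩
  obtain ⟨H1, B, hB, H2⟩ := H N hN D hD hDθ
  have hDR : (0 : ℝ) < D := by exact_mod_cast hD
  have hlit : ∀ (x : Clause N k → Bool) (Z : Set (Clause N k)),
      Pool.Agent.Y630.TF.lit x Z = literals x Z := by
    intro x Z
    funext p
    unfold Pool.Agent.Y630.TF.lit literals
    by_cases hp : p.2 = true
    · rw [if_pos hp, if_pos hp]
    · rw [if_neg hp, if_neg hp]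
      by_cases hZ : p.1 ∈ Z
      · simp [hZ]
      · simp [hZ]
  have hcl : (Fintype.card (Clause N k → Fin D) : ℝ) =
      (D : ℝ) ^ Fintype.card (Pool.Agent.Z45.SF.Cl N k) := by
    rw [Fintype.card_fun, Fintype.card_fin]
    push_cast
    rfl
  refine ⟨?_, ?_⟩
  · intro R _ _ C b hS h1 h2
    let _ : Fintype R := Fintype.ofFinite R
    have hR : (0 : ℝ) < Fintype.card R := by exact_mod_cast Fintype.card_pos
    set C' : R → Pool.Agent.W969.MC.RC (Clause N k × Bool) := fun ρ => ⟨(C ρ).s, (C ρ).special,
      (C ρ).w, (C ρ).a, (C ρ).op, (C ρ).θ, (C ρ).val, (C ρ).out, (C ρ).τ, (C ρ).earlier,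
      (C ρ).mono, (C ρ).tests, (C ρ).spec⟩ with hC'
    have g1 : ∀ x, ¬ Pool.Agent.Z45.SF.St x → (b + (N : ℝ) ^ (-δ)) *
        (Fintype.card R * (D : ℝ) ^ Fintype.card (Pool.Agent.Z45.SF.Cl N k)) ≤
        ({z : R × (Clause N k → Fin D) | (C' z.1).acc
          (Pool.Agent.Y630.TF.lit x (Pool.Agent.Y630.NW.Flt z.2))}.ncard : ℝ) := by
      intro x hx
      have h3 := h1 x hx
      unfold faultyAcceptance at h3
      have hcard : (Nat.card (R × (Clause N k → Fin D)) : ℝ) =
          Fintype.card R * (D : ℝ) ^ Fintype.card (Pool.Agent.Z45.SF.Cl N k) := by
        rw [Nat.card_eq_fintype_card, Fintype.card_prod, ← hcl]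
        push_cast
        rfl
      rw [hcard, le_div_iff₀ (by positivity)] at h3
      refine h3.trans (le_of_eq ?_)
      congr 1
      show Nat.card ↥{v : R × (Clause N k → Fin D) | (C v.1).Accepts x (zeros v.2)} = _
      rw [Nat.card_coe_set_eq]
      congr 1
      ext v
      show (C v.1).τ ≤ (C v.1).val (literals x (zeros v.2)) (C v.1).out ↔
        (C v.1).τ ≤ (C v.1).val (Pool.Agent.Y630.TF.lit x (Pool.Agent.Y630.NW.Flt v.2)) (C v.1).out
      rw [hlit]
      rfl
    have g2 : ∀ x, Pool.Agent.Z45.SF.St x →
        ({ρ : R | (C' ρ).acc (Pool.Agent.Y630.TF.lit x ∅)}.ncard : ℝ) ≤ b * Fintype.card R := by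
      intro x hx
      have h3 := h2 x hx
      unfold acceptance at h3
      rw [div_le_iff₀ (by rw [Nat.card_eq_fintype_card]; exact hR),
        Nat.card_eq_fintype_card (α := R)] at h3
      refine (le_of_eq ?_).trans h3
      congr 1
      show _ = Nat.card ↥{ρ : R | (C ρ).Accepts x ∅}
      rw [Nat.card_coe_set_eq]
      congr 1
      ext ρ
      show (C ρ).τ ≤ (C ρ).val (Pool.Agent.Y630.TF.lit x ∅) (C ρ).out ↔
        (C ρ).τ ≤ (C ρ).val (literals x ∅) (C ρ).out
      rw [hlit]
    obtain ⟨ρ, hρ⟩ := H1 R C' b hS g1 g2
    refine ⟨ρ, ?_⟩
    have h3 : (C' ρ).size = (C ρ).s := by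
      show (C ρ).s + ∑ i ∈ (C ρ).special, (C ρ).w i = (C ρ).s
      rw [hS ρ, Finset.sum_empty, Nat.add_zero]
    rw [← h3]
    exact hρ
  · rw [Nat.card_eq_fintype_card (α := Clause N k → Fin D), hcl]
    refine le_trans ?_ hB
    have h0 : Nat.card {f : Clause N k → Fin D //
        ¬ Indispensable N k δ ((N : ℝ) ^ ((k - θ) / (k + 1) - ε)) (zeros f)} ≤ B.ncard := by
      show Nat.card ↥{f : Clause N k → Fin D |
        ¬ Indispensable N k δ ((N : ℝ) ^ ((k - θ) / (k + 1) - ε)) (zeros f)} ≤ _
      rw [Nat.card_coe_set_eq]
      apply Set.ncard_le_ncard _ (Set.toFinite _)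
      intro f hf
      by_contra hfB
      apply hf
      intro R _ _ C b hS h1 h2
      let _ : Fintype R := Fintype.ofFinite R
      have hR : (0 : ℝ) < Fintype.card R := by exact_mod_cast Fintype.card_pos
      set C' : R → Pool.Agent.W969.MC.RC (Clause N k × Bool) := fun ρ => ⟨(C ρ).s, (C ρ).special,
        (C ρ).w, (C ρ).a, (C ρ).op, (C ρ).θ, (C ρ).val, (C ρ).out, (C ρ).τ, (C ρ).earlier,
        (C ρ).mono, (C ρ).tests, (C ρ).spec⟩ with hC'
      have hset : ∀ x, Nat.card {ρ : R // (C ρ).Accepts x (zeros f)} =
          {ρ : R | (C' ρ).acc (Pool.Agent.Y630.TF.lit x (Pool.Agent.Y630.NW.Flt f))}.ncard := by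
        intro x
        show Nat.card ↥{ρ : R | (C ρ).Accepts x (zeros f)} = _
        rw [Nat.card_coe_set_eq]
        congr 1
        ext ρ
        show (C ρ).τ ≤ (C ρ).val (literals x (zeros f)) (C ρ).out ↔
          (C ρ).τ ≤ (C ρ).val (Pool.Agent.Y630.TF.lit x (Pool.Agent.Y630.NW.Flt f)) (C ρ).out
        rw [hlit]
        rfl
      have g1 : ∀ x, ¬ Pool.Agent.Z45.SF.St x → (b + (N : ℝ) ^ (-δ)) * Fintype.card R ≤
          ({ρ : R | (C' ρ).acc (Pool.Agent.Y630.TF.lit x
            (Pool.Agent.Y630.NW.Flt f))}.ncard : ℝ) := by
        intro x hx
        have h3 := h1 x hx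
        unfold acceptance at h3
        rw [le_div_iff₀ (by rw [Nat.card_eq_fintype_card]; exact hR),
          Nat.card_eq_fintype_card (α := R), hset] at h3
        exact h3
      have g2 : ∀ x, Pool.Agent.Z45.SF.St x →
          ({ρ : R | (C' ρ).acc (Pool.Agent.Y630.TF.lit x
            (Pool.Agent.Y630.NW.Flt f))}.ncard : ℝ) ≤ b * Fintype.card R := by
        intro x hx
        have h3 := h2 x hx
        unfold acceptance at h3
        rw [div_le_iff₀ (by rw [Nat.card_eq_fintype_card]; exact hR),
          Nat.card_eq_fintype_card (α := R), hset] at h3
        exact h3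
      obtain ⟨ρ, hρ⟩ := H2 f hfB R C' b hS g1 g2
      exact ⟨ρ, hρ⟩
    exact_mod_cast h0

end Pool.Agent.Results.MP_b6562f_lc.UnreliableNegations
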